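import Pool.Agent.L0h38.GI.Stm2
import Pool.Agent.Q32.DP.NONMATCH

/-!
# Project GI, module BAD: non-isomorphism of labelled graphs is recursively enumerable (helper72)
-/

set_option autoImplicit false

namespace Pool.Agent.L0h72.GI.BAD

open Pool.Agent.L0h38.GI Pool.Agent.Q223.IS Pool.Agent.Q32.DP

/-! ### The code of the infinite cyclic group -/

/-- the code of the infinite cyclic group -/
def zc : Pres := (1, [])

theorem zc_iso : Nonempty (PG zc ≃* Multiplicative ℤ) := by
  let x : ℕ → Multiplicative ℤ := fun i => if i = 0 then Multiplicative.ofAdd 1 else 1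
  obtain ⟨F, hF⟩ := PG_lift zc x (fun i hi => by
    have h1 : 1 ≤ i := hi
    exact if_neg (by omega)) (fun w hw => absurd hw List.not_mem_nil)
  refine ⟨MonoidHom.toMulEquiv F (zpowersHom (PG zc) (gen zc 0)) ?_ ?_⟩
  · apply PG_ext
    intro i
    show zpowersHom (PG zc) (gen zc 0) (F (gen zc i)) = gen zc i
    rw [hF]
    by_cases hi : i = 0
    · subst hi
      have e : x 0 = Multiplicative.ofAdd 1 := if_pos rfl
      rw [e]
      simp
    · have e : x i = 1 := if_neg hi
      rw [e, map_one, gen_big]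
      show 1 ≤ i
      omega
  · apply MonoidHom.ext_mint
    show F (zpowersHom (PG zc) (gen zc 0) (Multiplicative.ofAdd 1)) = Multiplicative.ofAdd 1
    have e : zpowersHom (PG zc) (gen zc 0) (Multiplicative.ofAdd 1) = gen zc 0 := by simp
    rw [e, hF]
    exact if_pos rfl

theorem isZ_iff (a : Pres) : IsZ (PG a) ↔ Nonempty (PG a ≃* PG zc) := by
  obtain ⟨e⟩ := zc_iso
  exact ⟨fun ⟨g⟩ => ⟨g.trans e.symm⟩, fun ⟨g⟩ => ⟨g.trans e⟩⟩

/-- a nontrivial group without centre is not infinite cyclic -/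
theorem not_isZ {X : Type} [Group X] (h : Cless X) (h2 : Indec X) : ¬ IsZ X := by
  rintro ⟨e⟩
  obtain ⟨g, hg⟩ := h2.1
  apply hg
  apply h
  intro y
  apply e.injective
  rw [map_mul, map_mul, mul_comm]

/-! ### Certified non-isomorphism -/

/-- certified non-isomorphism -/
def Ne' (C : Pres → Prop) (f : Pres × Pres →. Bool) (a b : Pres) : Prop :=
  ((C a ∧ C b) ∧ false ∈ f (a, b)) ∨ ((C a ∧ Nonempty (PG b ≃* PG zc)) ∨
    (C b ∧ Nonempty (PG a ≃* PG zc)))

theorem ne_iff {C : Pres → Prop} {f : Pres × Pres →. Bool}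
    (h1 : ∀ k, C k → Cless (PG k) ∧ Indec (PG k))
    (h2 : ∀ a b, C a → C b →
    (Nonempty (PG a ≃* PG b) → true ∈ f (a, b)) ∧ (¬ Nonempty (PG a ≃* PG b) → false ∈ f (a, b)))
    {a b : Pres} (ha : C a ∨ IsZ (PG a)) (hb : C b ∨ IsZ (PG b)) :
    Ne' C f a b ↔ ¬ Nonempty (PG a ≃* PG b) := by
  constructor
  · rintro (⟨⟨h3, h4⟩, h5⟩ | ⟨h3, h4⟩ | ⟨h3, h4⟩) h6
    · have h7 := (h2 a b h3 h4).1 h6
      have h8 := Part.mem_unique h7 h5
      exact absurd h8 (by decide)
    · rw [← isZ_iff] at h4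
      obtain ⟨e⟩ := h6
      obtain ⟨g⟩ := h4
      exact not_isZ (h1 a h3).1 (h1 a h3).2 ⟨e.trans g⟩
    · rw [← isZ_iff] at h4
      obtain ⟨e⟩ := h6
      obtain ⟨g⟩ := h4
      exact not_isZ (h1 b h3).1 (h1 b h3).2 ⟨e.symm.trans g⟩
  · intro h
    rcases ha with ha | ha
    · rcases hb with hb | hb
      · exact Or.inl ⟨⟨ha, hb⟩, (h2 a b ha hb).2 h⟩
      · exact Or.inr (Or.inl ⟨ha, (isZ_iff b).1 hb⟩)
    · rcases hb with hb | hb
      · exact Or.inr (Or.inr ⟨hb, (isZ_iff a).1 ha⟩)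
      · obtain ⟨e⟩ := ha
        obtain ⟨g⟩ := hb
        exact absurd ⟨e.trans g.symm⟩ h

/-! ### Lists of maps -/

/-- all lists of length `k` with entries `< n` -/
def maps (n : ℕ) : ℕ → List (List ℕ)
  | 0 => [[]]
  | k + 1 => (maps n k).flatMap fun m => (List.range n).map fun a => a :: m

theorem mem_maps (n : ℕ) : ∀ (k : ℕ) (m : List ℕ),
    m ∈ maps n k ↔ m.length = k ∧ ∀ a ∈ m, a < n
  | 0, m => by
    show m ∈ [[]] ↔ _
    rw [List.mem_singleton]
    constructor
    · rintro rfl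
      exact ⟨rfl, fun a ha => absurd ha List.not_mem_nil⟩
    · rintro ⟨h, -⟩
      exact List.length_eq_zero_iff.1 h
  | k + 1, m => by
    show m ∈ (maps n k).flatMap (fun m => (List.range n).map fun a => a :: m) ↔ _
    rw [List.mem_flatMap]
    constructor
    · rintro ⟨m', hm', h⟩
      obtain ⟨a, ha, rfl⟩ := List.mem_map.1 h
      obtain ⟨h1, h2⟩ := (mem_maps n k m').1 hm'
      refine ⟨by rw [List.length_cons, h1], ?_⟩
      intro b hb
      rcases List.mem_cons.1 hb with rfl | hb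
      · exact List.mem_range.1 ha
      · exact h2 b hb
    · rintro ⟨h1, h2⟩
      cases m with
      | nil => exact absurd h1 (by simp)
      | cons a m =>
        refine ⟨m, (mem_maps n k m).2 ⟨?_, fun b hb => h2 b (List.mem_cons_of_mem _ hb)⟩,
          List.mem_map.2 ⟨a, List.mem_range.2 (h2 a List.mem_cons_self), rfl⟩⟩
        rw [List.length_cons] at h1
        omega

theorem maps_pr {α : Type} [Primcodable α] {f g : α → ℕ} (hf : Primrec f) (hg : Primrec g) :
    Primrec fun x => maps (f x) (g x) := by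
  have h1 : Primrec fun x => (Nat.rec (motive := fun _ => List (List ℕ)) [[]]
      (fun _ (l : List (List ℕ)) => l.flatMap fun m => (List.range (f x)).map fun a => a :: m)
      (g x) : List (List ℕ)) := by
    refine Primrec.nat_rec' (f := g) (g := fun _ : α => ([[]] : List (List ℕ)))
      (h := fun (x : α) (y : ℕ × List (List ℕ)) =>
        y.2.flatMap fun m => (List.range (f x)).map fun a => a :: m) hg (Primrec.const [[]]) ?_
    show Primrec fun z : α × (ℕ × List (List ℕ)) =>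
      z.2.2.flatMap fun m => (List.range (f z.1)).map fun a => a :: m
    refine Primrec.list_flatMap (Primrec.snd.comp Primrec.snd) ?_
    show Primrec fun u : (α × (ℕ × List (List ℕ))) × List ℕ =>
      (List.range (f u.1.1)).map fun a => a :: u.2
    refine Primrec.list_map (Primrec.list_range.comp
      (hf.comp (Primrec.fst.comp Primrec.fst))) ?_
    exact (Primrec.list_cons.comp Primrec.snd (Primrec.snd.comp Primrec.fst)).to₂
  refine h1.of_eq fun x => ?_
  generalize g x = k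
  induction k with
  | zero => rfl
  | succ k ih =>
    show List.flatMap _ _ = maps (f x) (k + 1)
    rw [ih]
    rfl

/-! ### The relation -/

/-- adjacency -/
def adj (E : List (ℕ × ℕ)) (i j : ℕ) : Prop := i ≠ j ∧ ((i, j) ∈ E ∨ (j, i) ∈ E)

/-- the labelled graphs -/
abbrev LG : Type := List Pres × List (ℕ × ℕ)

/-- the map `m` is not an isomorphism -/
def bad (C : Pres → Prop) (f : Pres × Pres →. Bool) (z : LG × LG) (m : List ℕ) : Prop :=
  ∃ i j : ℕ, (i < z.1.1.length ∧ j < z.1.1.length) ∧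
    ((i ≠ j ∧ m.getD i 0 = m.getD j 0) ∨
    ((adj z.1.2 i j ∧ ¬ adj z.2.2 (m.getD i 0) (m.getD j 0)) ∨
    ((¬ adj z.1.2 i j ∧ adj z.2.2 (m.getD i 0) (m.getD j 0)) ∨
    Ne' C f (z.1.1.getD i (0, [])) (z.2.1.getD (m.getD i 0) (0, [])))))

/-- no isomorphism -/
def Q (C : Pres → Prop) (f : Pres × Pres →. Bool) (z : LG × LG) : Prop :=
  z.1.1.length ≠ z.2.1.length ∨ ∀ m ∈ maps z.2.1.length z.1.1.length, bad C f z m

theorem adj_cp {α : Type} [Primcodable α] {e : α → List (ℕ × ℕ)} {i j : α → ℕ}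
    (he : Computable e) (hi : Computable i) (hj : Computable j) :
    ComputablePred fun x => adj (e x) (i x) (j x) := by
  unfold adj
  refine Pool.Agent.Helper926.RE.cp_and (Pool.Agent.Helper926.RE.cp_not
    (Pool.Agent.Helper926.RE.cp_eq hi hj)) (Pool.Agent.Helper926.RE.cp_or ?_ ?_)
  · exact Pool.Agent.Helper926.RE.cp_mem (hi.pair hj) he
  · exact Pool.Agent.Helper926.RE.cp_mem (hj.pair hi) he

theorem ne_re {α : Type} [Primcodable α] {C : Pres → Prop} {f : Pres × Pres →. Bool}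
    (hC : REPred C) (hf : Partrec f) {a b : α → Pres} (ha : Computable a) (hb : Computable b) :
    REPred fun x => Ne' C f (a x) (b x) := by
  unfold Ne'
  refine Pool.Agent.Helper926.RE.or (Pool.Agent.Helper926.RE.and
    (Pool.Agent.Helper926.RE.and (Pool.Agent.Helper926.RE.comp hC ha)
      (Pool.Agent.Helper926.RE.comp hC hb)) ?_) (Pool.Agent.Helper926.RE.or
        (Pool.Agent.Helper926.RE.and (Pool.Agent.Helper926.RE.comp hC ha) ?_)
        (Pool.Agent.Helper926.RE.and (Pool.Agent.Helper926.RE.comp hC hb) ?_))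
  · exact NONMATCH.re_mem hf false (ha.pair hb)
  · exact Pool.Agent.Helper926.RE.comp iso_re (hb.pair (Computable.const zc))
  · exact Pool.Agent.Helper926.RE.comp iso_re (ha.pair (Computable.const zc))

theorem Q_re {C : Pres → Prop} {f : Pres × Pres →. Bool} (hC : REPred C) (hf : Partrec f) :
    REPred (Q C f) := by
  unfold Q
  have hn : Computable fun z : LG × LG => z.1.1.length :=
    Computable.list_length.comp (Computable.fst.comp Computable.fst)
  have hn' : Computable fun z : LG × LG => z.2.1.length :=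
    Computable.list_length.comp (Computable.fst.comp Computable.snd)
  refine Pool.Agent.Helper926.RE.or (Pool.Agent.Helper926.RE.ne hn hn') ?_
  refine Pool.Agent.Helper926.RE.all_mem (α := LG × LG) (β := List ℕ)
    (l := fun z => maps z.2.1.length z.1.1.length) (p := fun z m => bad C f z m) ?_ ?_
  swap
  · exact (maps_pr (Primrec.list_length.comp (Primrec.fst.comp Primrec.snd))
      (Primrec.list_length.comp (Primrec.fst.comp Primrec.fst))).to_comp
  unfold bad
  refine Pool.Agent.Helper926.RE.exN (α := (LG × LG) × List ℕ) (p := fun x i => ∃ j : ℕ,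
    (i < x.1.1.1.length ∧ j < x.1.1.1.length) ∧
    ((i ≠ j ∧ x.2.getD i 0 = x.2.getD j 0) ∨
    ((adj x.1.1.2 i j ∧ ¬ adj x.1.2.2 (x.2.getD i 0) (x.2.getD j 0)) ∨
    ((¬ adj x.1.1.2 i j ∧ adj x.1.2.2 (x.2.getD i 0) (x.2.getD j 0)) ∨
    Ne' C f (x.1.1.1.getD i (0, [])) (x.1.2.1.getD (x.2.getD i 0) (0, [])))))) ?_
  refine Pool.Agent.Helper926.RE.exN (α := ((LG × LG) × List ℕ) × ℕ) (p := fun y j =>
    (y.2 < y.1.1.1.1.length ∧ j < y.1.1.1.1.length) ∧
    ((y.2 ≠ j ∧ y.1.2.getD y.2 0 = y.1.2.getD j 0) ∨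
    ((adj y.1.1.1.2 y.2 j ∧ ¬ adj y.1.1.2.2 (y.1.2.getD y.2 0) (y.1.2.getD j 0)) ∨
    ((¬ adj y.1.1.1.2 y.2 j ∧ adj y.1.1.2.2 (y.1.2.getD y.2 0) (y.1.2.getD j 0)) ∨
    Ne' C f (y.1.1.1.1.getD y.2 (0, [])) (y.1.1.2.1.getD (y.1.2.getD y.2 0) (0, [])))))) ?_
  have hz : Computable fun y : (((LG × LG) × List ℕ) × ℕ) × ℕ => y.1.1.1 :=
    Computable.fst.comp (Computable.fst.comp Computable.fst)
  have hm : Computable fun y : (((LG × LG) × List ℕ) × ℕ) × ℕ => y.1.1.2 :=
    Computable.snd.comp (Computable.fst.comp Computable.fst)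
  have hi : Computable fun y : (((LG × LG) × List ℕ) × ℕ) × ℕ => y.1.2 :=
    Computable.snd.comp Computable.fst
  have hj : Computable fun y : (((LG × LG) × List ℕ) × ℕ) × ℕ => y.2 := Computable.snd
  have hmi : Computable fun y : (((LG × LG) × List ℕ) × ℕ) × ℕ => y.1.1.2.getD y.1.2 0 :=
    (Primrec.list_getD (0 : ℕ)).to_comp.comp hm hi
  have hmj : Computable fun y : (((LG × LG) × List ℕ) × ℕ) × ℕ => y.1.1.2.getD y.2 0 :=
    (Primrec.list_getD (0 : ℕ)).to_comp.comp hm hj
  have hE : Computable fun y : (((LG × LG) × List ℕ) × ℕ) × ℕ => y.1.1.1.1.2 :=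
    Computable.snd.comp (Computable.fst.comp hz)
  have hE' : Computable fun y : (((LG × LG) × List ℕ) × ℕ) × ℕ => y.1.1.1.2.2 :=
    Computable.snd.comp (Computable.snd.comp hz)
  have hL : Computable fun y : (((LG × LG) × List ℕ) × ℕ) × ℕ =>
      y.1.1.1.1.1.getD y.1.2 ((0, []) : Pres) :=
    (Primrec.list_getD ((0, []) : Pres)).to_comp.comp (Computable.fst.comp (Computable.fst.comp hz)) hi
  have hL' : Computable fun y : (((LG × LG) × List ℕ) × ℕ) × ℕ =>
      y.1.1.1.2.1.getD (y.1.1.2.getD y.1.2 0) ((0, []) : Pres) :=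
    (Primrec.list_getD ((0, []) : Pres)).to_comp.comp (Computable.fst.comp (Computable.snd.comp hz)) hmi
  refine Pool.Agent.Helper926.RE.and (Pool.Agent.Helper926.RE.and
    (Pool.Agent.Helper926.RE.lt hi (hn.comp hz)) (Pool.Agent.Helper926.RE.lt hj (hn.comp hz)))
    (Pool.Agent.Helper926.RE.or (Pool.Agent.Helper926.RE.and
      (Pool.Agent.Helper926.RE.ne hi hj) (Pool.Agent.Helper926.RE.eq hmi hmj))
    (Pool.Agent.Helper926.RE.or ?_ (Pool.Agent.Helper926.RE.or ?_ (ne_re hC hf hL hL'))))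
  · exact Pool.Agent.Helper926.RE.of_comput (Pool.Agent.Helper926.RE.cp_and
      (adj_cp hE hi hj) (Pool.Agent.Helper926.RE.cp_not (adj_cp hE' hmi hmj)))
  · exact Pool.Agent.Helper926.RE.of_comput (Pool.Agent.Helper926.RE.cp_and
      (Pool.Agent.Helper926.RE.cp_not (adj_cp hE hi hj)) (adj_cp hE' hmi hmj))

theorem gr_adj (E : List (ℕ × ℕ)) (n : ℕ) (i j : Fin n) :
    (gr E n).Adj i j ↔ adj E i.1 j.1 := by
  show (i ≠ j ∧ _) ↔ (i.1 ≠ j.1 ∧ _)
  rw [Ne, Ne, Fin.ext_iff]

theorem getD_fin (L : List Pres) (i : Fin L.length) : L.getD i.1 (0, []) = L.get i := by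
  rw [List.getD_eq_getElem _ _ i.2]
  rfl

/-- BAD -/
theorem t_BAD : S_BAD := by
  intro C f hC hf h1 h2
  refine ⟨Q C f, Q_re hC hf, ?_⟩
  intro L E L' E' hL hL'
  have hne : ∀ (i : Fin L.length) (j : Fin L'.length),
      Ne' C f (L.getD i.1 (0, [])) (L'.getD j.1 (0, [])) ↔
        ¬ Nonempty (PG (L.get i) ≃* PG (L'.get j)) := by
    intro i j
    rw [getD_fin, getD_fin]
    exact ne_iff h1 h2 (hL _ (L.get_mem i)) (hL' _ (L'.get_mem j))
  constructor
  · rintro hQ ⟨σ, hσ⟩
    have hcard : L.length = L'.length := by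
      have := Fintype.card_congr σ.toEquiv
      rwa [Fintype.card_fin, Fintype.card_fin] at this
    rcases hQ with hQ | hQ
    · exact hQ hcard
    let m : List ℕ := List.ofFn fun i : Fin L.length => (σ i).1
    have hm1 : m.length = L.length := List.length_ofFn
    have hm : m ∈ maps L'.length L.length := by
      rw [mem_maps]
      refine ⟨hm1, ?_⟩
      intro a ha
      obtain ⟨i, rfl⟩ := (List.mem_ofFn' _ _).1 ha
      exact (σ i).2
    have hg : ∀ i : Fin L.length, m.getD i.1 0 = (σ i).1 := by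
      intro i
      rw [List.getD_eq_getElem _ _ (by rw [hm1]; exact i.2)]
      simp [m]
    obtain ⟨i, j, ⟨hi, hj⟩, h⟩ := hQ m hm
    simp only at hi hj
    have gi := hg ⟨i, hi⟩
    have gj := hg ⟨j, hj⟩
    simp only at gi gj
    rw [gi, gj] at h
    rcases h with ⟨h, h'⟩ | ⟨h, h'⟩ | ⟨h, h'⟩ | h
    · have := σ.injective (Fin.ext h')
      exact h (congrArg Fin.val this)
    · apply h'
      rw [← gr_adj, σ.map_adj_iff, gr_adj]
      exact h
    · apply h
      rw [← gr_adj, σ.map_adj_iff, gr_adj] at h'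
      exact h'
    · exact (hne ⟨i, hi⟩ (σ ⟨i, hi⟩)).1 h (hσ _)
  · intro hno
    by_contra hQ
    unfold Q at hQ
    push Not at hQ
    obtain ⟨hlen, m, hm, hbad⟩ := hQ
    simp only at hlen hm
    apply hno
    obtain ⟨hm1, hm2⟩ := (mem_maps _ _ _).1 hm
    have hlt : ∀ i : Fin L.length, m.getD i.1 0 < L'.length := by
      intro i
      have hi : i.1 < m.length := by rw [hm1]; exact i.2
      rw [List.getD_eq_getElem _ _ hi]
      exact hm2 _ (List.getElem_mem hi)
    let s : Fin L.length → Fin L'.length := fun i => ⟨m.getD i.1 0, hlt i⟩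
    have hb : ∀ i j : Fin L.length, ¬ ((i.1 ≠ j.1 ∧ m.getD i.1 0 = m.getD j.1 0) ∨
      ((adj E i.1 j.1 ∧ ¬ adj E' (m.getD i.1 0) (m.getD j.1 0)) ∨
      ((¬ adj E i.1 j.1 ∧ adj E' (m.getD i.1 0) (m.getD j.1 0)) ∨
      Ne' C f (L.getD i.1 (0, [])) (L'.getD (m.getD i.1 0) (0, []))))) := by
      intro i j h
      exact hbad ⟨i.1, j.1, ⟨i.2, j.2⟩, h⟩
    have hinj : Function.Injective s := by
      intro i j hij
      by_contra hne'
      exact hb i j (Or.inl ⟨fun h => hne' (Fin.ext h), congrArg Fin.val hij⟩)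
    have hbij : Function.Bijective s := by
      rw [Fintype.bijective_iff_injective_and_card]
      exact ⟨hinj, by rw [Fintype.card_fin, Fintype.card_fin, hlen]⟩
    refine ⟨⟨Equiv.ofBijective s hbij, ?_⟩, ?_⟩
    · intro i j
      show (gr E' L'.length).Adj (s i) (s j) ↔ (gr E L.length).Adj i j
      rw [gr_adj, gr_adj]
      constructor
      · intro h
        by_contra h'
        exact hb i j (Or.inr (Or.inr (Or.inl ⟨h', h⟩)))
      · intro h
        by_contra h'
        exact hb i j (Or.inr (Or.inl ⟨h, h'⟩))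
    · intro i
      show Nonempty (PG (L.get i) ≃* PG (L'.get (s i)))
      by_contra h
      exact hb i i (Or.inr (Or.inr (Or.inr ((hne i (s i)).2 h))))

end Pool.Agent.L0h72.GI.BAD
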