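import Pool.Agent.L0h38.GI.Stm2
import Pool.Agent.Q32.DP.PROD2

/-!
# Project GI, module COD: a primitive recursive presentation of a graph product (helper72)

The generator `k` of the vertex group `i` gets the number `n * k + i` (`n` = number of vertices).
-/

set_option autoImplicit false

namespace Pool.Agent.L0h72.GI.COD

open Pool.Agent.L0h38.GI Pool.Agent.Q223.IS Pool.Agent.Q32.DP Pool.Agent.Q32.DP.PROD2

/-- a bound for the numbers of generators -/
def bd (L : List Pres) : ℕ := L.foldr (fun a s => a.1 + s) 0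

theorem le_bd : ∀ (L : List Pres) (a : Pres), a ∈ L → a.1 ≤ bd L
  | [], a, h => absurd h List.not_mem_nil
  | b :: L, a, h => by
    have e : bd (b :: L) = b.1 + bd L := rfl
    rcases List.mem_cons.1 h with rfl | h
    · rw [e]; exact Nat.le_add_right _ _
    · rw [e]; exact (le_bd L a h).trans (Nat.le_add_left _ _)

/-- the presentation of the vertex `i` -/
def gd (L : List Pres) (i : ℕ) : Pres := L.getD i (0, [])

theorem gd_get (L : List Pres) (i : Fin L.length) : gd L i.1 = L.get i := by
  unfold gd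
  rw [List.getD_eq_getElem _ _ i.2]
  rfl

/-- the relators of the vertex groups -/
def R1 (L : List Pres) : List Wd :=
  (List.range L.length).flatMap fun i => (gd L i).2.map (mp fun k => L.length * k + i)

/-- the superfluous generators are trivial -/
def R2 (L : List Pres) : List Wd :=
  (List.range L.length).flatMap fun i => (List.range (bd L)).map fun k =>
    if (gd L i).1 ≤ k then [(L.length * k + i, true)] else []

/-- the commutators -/
def R3 (L : List Pres) (E : List (ℕ × ℕ)) : List Wd :=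
  E.flatMap fun e => (List.range (bd L)).flatMap fun k => (List.range (bd L)).map fun l =>
    if e.1 ≠ e.2 ∧ e.1 < L.length ∧ e.2 < L.length then
      cmw [(L.length * k + e.1, true)] [(L.length * l + e.2, true)] else []

/-- the presentation -/
def Pc (z : List Pres × List (ℕ × ℕ)) : Pres :=
  (z.1.length * bd z.1, R1 z.1 ++ (R2 z.1 ++ R3 z.1 z.2))

theorem mem_Pc {L : List Pres} {E : List (ℕ × ℕ)} {w : Wd} (hw : w ∈ (Pc (L, E)).2) :
    (∃ i : Fin L.length, ∃ u ∈ (L.get i).2, w = mp (fun k => L.length * k + i.1) u) ∨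
    (∃ i : Fin L.length, ∃ k, (L.get i).1 ≤ k ∧ w = [(L.length * k + i.1, true)]) ∨
    w = [] ∨
    (∃ i j : Fin L.length, (gr E L.length).Adj i j ∧ ∃ k l,
      w = cmw [(L.length * k + i.1, true)] [(L.length * l + j.1, true)]) := by
  rcases List.mem_append.1 hw with hw | hw
  · obtain ⟨i, hi, hw⟩ := List.mem_flatMap.1 hw
    obtain ⟨u, hu, rfl⟩ := List.mem_map.1 hw
    have hi := List.mem_range.1 hi
    refine Or.inl ⟨⟨i, hi⟩, u, ?_, rfl⟩
    rw [← gd_get L ⟨i, hi⟩]
    exact hu
  rcases List.mem_append.1 hw with hw | hw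
  · obtain ⟨i, hi, hw⟩ := List.mem_flatMap.1 hw
    obtain ⟨k, -, rfl⟩ := List.mem_map.1 hw
    have hi := List.mem_range.1 hi
    by_cases h : (gd L i).1 ≤ k
    · rw [if_pos h]
      refine Or.inr (Or.inl ⟨⟨i, hi⟩, k, ?_, rfl⟩)
      rw [← gd_get L ⟨i, hi⟩]
      exact h
    · rw [if_neg h]
      exact Or.inr (Or.inr (Or.inl rfl))
  · obtain ⟨e, he, hw⟩ := List.mem_flatMap.1 hw
    obtain ⟨k, -, hw⟩ := List.mem_flatMap.1 hw
    obtain ⟨l, -, rfl⟩ := List.mem_map.1 hw
    by_cases h : e.1 ≠ e.2 ∧ e.1 < L.length ∧ e.2 < L.length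
    · rw [if_pos h]
      refine Or.inr (Or.inr (Or.inr ⟨⟨e.1, h.2.1⟩, ⟨e.2, h.2.2⟩, ⟨?_, Or.inl he⟩, k, l, rfl⟩))
      intro h3
      exact h.1 (congrArg Fin.val h3)
    · rw [if_neg h]
      exact Or.inr (Or.inr (Or.inl rfl))

theorem rel1 {L : List Pres} {E : List (ℕ × ℕ)} (i : Fin L.length) {u : Wd}
    (hu : u ∈ (L.get i).2) : mp (fun k => L.length * k + i.1) u ∈ (Pc (L, E)).2 := by
  refine List.mem_append_left _ (List.mem_flatMap.2 ⟨i.1, List.mem_range.2 i.2, ?_⟩)
  refine List.mem_map_of_mem ?_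
  rw [gd_get]
  exact hu

theorem rel2 {L : List Pres} {E : List (ℕ × ℕ)} (i : Fin L.length) {k : ℕ}
    (hk : (L.get i).1 ≤ k) : gen (Pc (L, E)) (L.length * k + i.1) = 1 := by
  by_cases h : k < bd L
  · have h1 : [(L.length * k + i.1, true)] ∈ (Pc (L, E)).2 := by
      refine List.mem_append_right _ (List.mem_append_left _
        (List.mem_flatMap.2 ⟨i.1, List.mem_range.2 i.2, List.mem_map.2
          ⟨k, List.mem_range.2 h, ?_⟩⟩))
      rw [gd_get, if_pos hk]
    have h2 := PG_rel _ h1
    rw [ev_true] at h2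
    exact h2
  · refine gen_big _ ?_
    show L.length * bd L ≤ _
    exact (Nat.mul_le_mul_left _ (not_lt.1 h)).trans (Nat.le_add_right _ _)

theorem rel3 {L : List Pres} {E : List (ℕ × ℕ)} {i j : Fin L.length}
    (hij : (gr E L.length).Adj i j) (k l : ℕ) :
    Commute (gen (Pc (L, E)) (L.length * k + i.1)) (gen (Pc (L, E)) (L.length * l + j.1)) := by
  by_cases hk : k < bd L
  swap
  · rw [rel2 i ((le_bd L _ (L.get_mem i)).trans (not_lt.1 hk))]
    exact Commute.one_left _
  by_cases hl : l < bd L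
  swap
  · rw [rel2 j ((le_bd L _ (L.get_mem j)).trans (not_lt.1 hl))]
    exact Commute.one_right _
  have key : ∀ i j : Fin L.length, i ≠ j → (i.1, j.1) ∈ E → ∀ k < bd L, ∀ l < bd L,
      Commute (gen (Pc (L, E)) (L.length * k + i.1)) (gen (Pc (L, E)) (L.length * l + j.1)) := by
    intro i j hij he k hk l hl
    have h1 : cmw [(L.length * k + i.1, true)] [(L.length * l + j.1, true)] ∈ (Pc (L, E)).2 := by
      refine List.mem_append_right _ (List.mem_append_right _
        (List.mem_flatMap.2 ⟨(i.1, j.1), he, List.mem_flatMap.2 ⟨k, List.mem_range.2 hk,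
          List.mem_map.2 ⟨l, List.mem_range.2 hl, ?_⟩⟩⟩))
      exact if_pos ⟨fun h => hij (Fin.ext h), i.2, j.2⟩
    have h2 := PG_rel _ h1
    rw [ev_cmw, ev_true, ev_true] at h2
    exact h2
  rcases hij.2 with h | h
  · exact key i j hij.1 h k hk l hl
  · exact (key j i hij.1.symm h l hl k hk).symm

theorem iso (L : List Pres) (E : List (ℕ × ℕ)) :
    Nonempty (PG (Pc (L, E)) ≃* GrP (gr E L.length) (fun i : Fin L.length => PG (L.get i))) := by
  set c : Pres := Pc (L, E) with hc
  let G : Fin L.length → Type := fun i : Fin L.length => PG (L.get i)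
  let x : ℕ → GrP (gr E L.length) (fun i : Fin L.length => PG (L.get i)) := fun j =>
    if h : 0 < L.length then
      inj (gr E L.length) (fun i : Fin L.length => PG (L.get i)) ⟨j % L.length, Nat.mod_lt _ h⟩
        (gen (L.get ⟨j % L.length, Nat.mod_lt _ h⟩) (j / L.length)) else 1
  have hx : ∀ (i : Fin L.length) (k : ℕ), x (L.length * k + i.1) =
      inj (gr E L.length) (fun i : Fin L.length => PG (L.get i)) i (gen (L.get i) k) := by
    intro i k
    have h : 0 < L.length := lt_of_le_of_lt (Nat.zero_le _) i.2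
    have e1 : (⟨(L.length * k + i.1) % L.length, Nat.mod_lt _ h⟩ : Fin L.length) = i := by
      apply Fin.ext
      show (L.length * k + i.1) % L.length = i.1
      rw [Nat.mul_add_mod, Nat.mod_eq_of_lt i.2]
    have e2 : (L.length * k + i.1) / L.length = k := by
      rw [Nat.mul_add_div h, Nat.div_eq_of_lt i.2, add_zero]
    show dite _ _ _ = _
    rw [dif_pos h, e2]
    rw [e1]
  have hx1 : ∀ j, c.1 ≤ j → x j = 1 := by
    intro j hj
    by_cases h : 0 < L.length
    · show dite _ _ _ = _
      rw [dif_pos h, gen_big, map_one]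
      have h1 : bd L ≤ j / L.length := by
        rw [Nat.le_div_iff_mul_le h, mul_comm]
        exact hj
      exact (le_bd L _ (L.get_mem _)).trans h1
    · exact dif_neg h
  obtain ⟨F, hF⟩ := PG_lift c x hx1 (by
    intro w hw
    rcases mem_Pc hw with ⟨i, u, hu, rfl⟩ | ⟨i, k, hk, rfl⟩ | rfl | ⟨i, j, hij, k, l, rfl⟩
    · rw [ev_mp]
      have e : (fun k => x (L.length * k + i.1)) = fun k =>
          inj (gr E L.length) (fun i : Fin L.length => PG (L.get i)) i (gen (L.get i) k) :=
        funext fun k => hx i k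
      rw [e, ← ev_map, PG_rel (L.get i) hu, map_one]
    · rw [ev_true, hx, gen_big _ hk, map_one]
    · exact ev_nil x
    · rw [ev_cmw, ev_true, ev_true, hx, hx]
      exact inj_comm hij _ _)
  have hG0 : ∀ i : Fin L.length, ∃ f : PG (L.get i) →* PG c,
      ∀ k, f (gen (L.get i) k) = gen c (L.length * k + i.1) := by
    intro i
    refine PG_lift (L.get i) (fun k => gen c (L.length * k + i.1)) ?_ ?_
    · intro k hk
      exact rel2 i hk
    · intro w hw
      rw [← ev_mp (gen c) (fun k => L.length * k + i.1)]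
      exact PG_rel c (rel1 i hw)
  choose f hf using hG0
  have hcm : ∀ i j : Fin L.length, (gr E L.length).Adj i j → ∀ (u : PG (L.get i)) (v : PG (L.get j)),
      Commute (f i u) (f j v) := by
    intro i j hij u v
    obtain ⟨w, rfl⟩ := gen_word _ u
    obtain ⟨w', rfl⟩ := gen_word _ v
    rw [ev_map, ev_map]
    have h1 : ∀ k l, Commute (f i (gen (L.get i) k)) (f j (gen (L.get j) l)) := by
      intro k l
      rw [hf, hf]
      exact rel3 hij k l
    refine ev_comm (fun k => ?_) w
    exact (ev_comm (fun l => (h1 k l).symm) w').symm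
  let K : GrP (gr E L.length) (fun i : Fin L.length => PG (L.get i)) →* PG c :=
    lift (Γ := gr E L.length) (G := fun i : Fin L.length => PG (L.get i)) f hcm
  have hK : ∀ (i : Fin L.length) (u : PG (L.get i)),
      K (inj (gr E L.length) (fun i : Fin L.length => PG (L.get i)) i u) = f i u := by
    intro i u
    exact lift_inj (Γ := gr E L.length) (G := fun i : Fin L.length => PG (L.get i)) f hcm i u
  refine ⟨MonoidHom.toMulEquiv F K ?_ ?_⟩
  · apply PG_ext
    intro j
    show K (F (gen c j)) = gen c j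
    rw [hF]
    by_cases h : 0 < L.length
    · have e : j = L.length * (j / L.length) + (⟨j % L.length, Nat.mod_lt _ h⟩ : Fin L.length).1 :=
        (Nat.div_add_mod j L.length).symm
      rw [e, hx, hK, hf]
    · have e : x j = 1 := dif_neg h
      rw [e, map_one, gen_big c]
      show L.length * bd L ≤ j
      have : L.length = 0 := by omega
      rw [this, zero_mul]
      exact Nat.zero_le _
  · apply gp_ext
    intro i u
    show F (K (inj (gr E L.length) (fun i : Fin L.length => PG (L.get i)) i u)) =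
      inj (gr E L.length) (fun i : Fin L.length => PG (L.get i)) i u
    rw [hK]
    have h2 : F.comp (f i) = inj (gr E L.length) (fun i : Fin L.length => PG (L.get i)) i := by
      apply PG_ext
      intro k
      show F (f i (gen (L.get i) k)) = _
      rw [hf, hF, hx]
    exact DFunLike.congr_fun h2 u

theorem bd_pr : Primrec bd := by
  unfold bd
  refine Primrec.list_foldr (h := fun (_ : List Pres) (y : Pres × ℕ) => y.1.1 + y.2)
    Primrec.id (Primrec.const 0) ?_
  exact (Primrec.nat_add.comp (Primrec.fst.comp (Primrec.fst.comp Primrec.snd))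
    (Primrec.snd.comp Primrec.snd)).to₂

theorem gd_pr : Primrec₂ gd := Primrec.list_getD _

theorem Pc_pr : Primrec Pc := by
  unfold Pc
  have hL : Primrec fun z : List Pres × List (ℕ × ℕ) => z.1 := Primrec.fst
  have hn : Primrec fun z : List Pres × List (ℕ × ℕ) => z.1.length :=
    Primrec.list_length.comp hL
  have hb : Primrec fun z : List Pres × List (ℕ × ℕ) => bd z.1 := bd_pr.comp hL
  refine Primrec.pair (Primrec.nat_mul.comp hn hb) ?_
  refine Primrec.list_append.comp ?_ (Primrec.list_append.comp ?_ ?_)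
  · unfold R1
    refine Primrec.list_flatMap (Primrec.list_range.comp hn) ?_
    show Primrec fun y : (List Pres × List (ℕ × ℕ)) × ℕ =>
      (gd y.1.1 y.2).2.map (mp fun k => y.1.1.length * k + y.2)
    refine Primrec.list_map (Primrec.snd.comp
      (gd_pr.comp (hL.comp Primrec.fst) Primrec.snd)) ?_
    show Primrec fun u : ((List Pres × List (ℕ × ℕ)) × ℕ) × Wd =>
      mp (fun k => u.1.1.1.length * k + u.1.2) u.2
    refine mp_pr (σ := fun (u : ((List Pres × List (ℕ × ℕ)) × ℕ) × Wd) k =>
      u.1.1.1.length * k + u.1.2) ?_ Primrec.snd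
    show Primrec fun v : (((List Pres × List (ℕ × ℕ)) × ℕ) × Wd) × ℕ =>
      v.1.1.1.1.length * v.2 + v.1.1.2
    exact Primrec.nat_add.comp (Primrec.nat_mul.comp
      (hn.comp (Primrec.fst.comp (Primrec.fst.comp Primrec.fst))) Primrec.snd)
      (Primrec.snd.comp (Primrec.fst.comp Primrec.fst))
  · unfold R2
    refine Primrec.list_flatMap (Primrec.list_range.comp hn) ?_
    show Primrec fun y : (List Pres × List (ℕ × ℕ)) × ℕ =>
      (List.range (bd y.1.1)).map fun k =>
        if (gd y.1.1 y.2).1 ≤ k then ([(y.1.1.length * k + y.2, true)] : Wd) else []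
    refine Primrec.list_map (Primrec.list_range.comp (hb.comp Primrec.fst)) ?_
    show Primrec fun u : ((List Pres × List (ℕ × ℕ)) × ℕ) × ℕ =>
      if (gd u.1.1.1 u.1.2).1 ≤ u.2 then ([(u.1.1.1.length * u.2 + u.1.2, true)] : Wd) else []
    refine Primrec.ite ?_ (lt_pr ?_) (Primrec.const [])
    · exact Primrec.nat_le.comp (Primrec.fst.comp (gd_pr.comp
        (hL.comp (Primrec.fst.comp Primrec.fst)) (Primrec.snd.comp Primrec.fst))) Primrec.snd
    · exact Primrec.nat_add.comp (Primrec.nat_mul.comp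
        (hn.comp (Primrec.fst.comp Primrec.fst)) Primrec.snd) (Primrec.snd.comp Primrec.fst)
  · unfold R3
    refine Primrec.list_flatMap Primrec.snd ?_
    show Primrec fun y : (List Pres × List (ℕ × ℕ)) × (ℕ × ℕ) =>
      (List.range (bd y.1.1)).flatMap fun k => (List.range (bd y.1.1)).map fun l =>
        if y.2.1 ≠ y.2.2 ∧ y.2.1 < y.1.1.length ∧ y.2.2 < y.1.1.length then
          cmw [(y.1.1.length * k + y.2.1, true)] [(y.1.1.length * l + y.2.2, true)] else []
    refine Primrec.list_flatMap (Primrec.list_range.comp (hb.comp Primrec.fst)) ?_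
    show Primrec fun u : ((List Pres × List (ℕ × ℕ)) × (ℕ × ℕ)) × ℕ =>
      (List.range (bd u.1.1.1)).map fun l =>
        if u.1.2.1 ≠ u.1.2.2 ∧ u.1.2.1 < u.1.1.1.length ∧ u.1.2.2 < u.1.1.1.length then
          cmw [(u.1.1.1.length * u.2 + u.1.2.1, true)]
            [(u.1.1.1.length * l + u.1.2.2, true)] else []
    refine Primrec.list_map (Primrec.list_range.comp
      (hb.comp (Primrec.fst.comp Primrec.fst))) ?_
    show Primrec fun v : (((List Pres × List (ℕ × ℕ)) × (ℕ × ℕ)) × ℕ) × ℕ =>
        if v.1.1.2.1 ≠ v.1.1.2.2 ∧ v.1.1.2.1 < v.1.1.1.1.length ∧ v.1.1.2.2 < v.1.1.1.1.length then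
          cmw [(v.1.1.1.1.length * v.1.2 + v.1.1.2.1, true)]
            [(v.1.1.1.1.length * v.2 + v.1.1.2.2, true)] else []
    have hz : Primrec fun v : (((List Pres × List (ℕ × ℕ)) × (ℕ × ℕ)) × ℕ) × ℕ => v.1.1.1 :=
      Primrec.fst.comp (Primrec.fst.comp Primrec.fst)
    have h1 : Primrec fun v : (((List Pres × List (ℕ × ℕ)) × (ℕ × ℕ)) × ℕ) × ℕ => v.1.1.2.1 :=
      Primrec.fst.comp (Primrec.snd.comp (Primrec.fst.comp Primrec.fst))
    have h2 : Primrec fun v : (((List Pres × List (ℕ × ℕ)) × (ℕ × ℕ)) × ℕ) × ℕ => v.1.1.2.2 :=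
      Primrec.snd.comp (Primrec.snd.comp (Primrec.fst.comp Primrec.fst))
    have hm := hn.comp hz
    refine Primrec.ite ?_ (cmw_pr (lt_pr ?_) (lt_pr ?_)) (Primrec.const [])
    · exact (Primrec.eq.comp h1 h2).not.and
        ((Primrec.nat_lt.comp h1 hm).and (Primrec.nat_lt.comp h2 hm))
    · exact Primrec.nat_add.comp (Primrec.nat_mul.comp hm (Primrec.snd.comp Primrec.fst)) h1
    · exact Primrec.nat_add.comp (Primrec.nat_mul.comp hm Primrec.snd) h2

/-- COD: a primitive recursive presentation of a graph product. -/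
theorem t_COD : S_COD := ⟨Pc, Pc_pr, iso⟩

end Pool.Agent.L0h72.GI.COD
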